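import Pool.Agent.Lib.MP_1a49c3_al.Free

set_option autoImplicit false

namespace Pool.Agent.Results.MP_1a49c3_al.QuadricClosures

open Matrix Polynomial Pool.Agent.Lib.MP_1a49c3_al

variable {K : Type*} [Field K]

/-- A point of the quadric of trace one. -/
def pt (c : K) : Matrix (Fin 3) (Fin 3) K := !![1, 0, 0; 0, 0, -c; 0, 1, 0]

theorem pt_trace (c : K) : (pt c).trace = 1 := by
  simp [pt, Matrix.trace_fin_three]

theorem pt_e2 (c : K) : e2 (pt c) = c := by
  simp [pt, e2]

theorem pt_mem (c : K) : pt c ∈ quadric c := by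
  rw [mem_quadric, pt_trace, pt_e2]; ring

theorem quadric_injective : Function.Injective (quadric : K → Set (Matrix (Fin 3) (Fin 3) K)) := by
  intro c c' h
  have h1 := pt_mem c
  rw [h, mem_quadric, pt_trace, pt_e2] at h1
  simpa using h1

theorem trace_of_mem_V3 (A : Matrix (Fin 3) (Fin 3) K) (hA : A ∈ V3 K) :
    A.trace = 0 ∧ e2 A = 0 := by
  obtain ⟨c, hc⟩ := hA
  refine ⟨?_, ?_⟩
  · rw [Matrix.trace_eq_neg_charpoly_coeff, hc]
    simp [coeff_C]
  · rw [← charpoly_coeff_one, hc]
    simp [coeff_C]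

theorem quadric_not_mem_six (c : K) (h3 : 3 * c ≠ 1) : quadric c ∉ sixSets K := by
  have hpt := pt_mem c
  intro h
  simp only [sixSets, Set.mem_insert_iff, Set.mem_singleton_iff] at h
  rcases h with h | h | h | h | h | h
  · rw [h] at hpt
    have h1 := congrFun (congrFun (Set.mem_singleton_iff.1 hpt) 0) 0
    simp [pt] at h1
  · rw [h] at hpt
    obtain ⟨s, hs⟩ := hpt
    have h1 := congrFun (congrFun hs 2) 1
    simp [pt] at h1
  · rw [h] at hpt
    have h1 := (trace_of_mem_V3 _ hpt).1
    rw [pt_trace] at h1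
    exact one_ne_zero h1
  · rw [h] at hpt
    have h1 : (pt c).trace = 0 := hpt
    rw [pt_trace] at h1
    exact one_ne_zero h1
  · rw [h] at hpt
    let φ : MvPolynomial (Fin 3 × Fin 3) K :=
      MvPolynomial.C 3 * ((MvPolynomial.X (0, 0) * MvPolynomial.X (1, 1)
        - MvPolynomial.X (0, 1) * MvPolynomial.X (1, 0))
      + (MvPolynomial.X (0, 0) * MvPolynomial.X (2, 2)
        - MvPolynomial.X (0, 2) * MvPolynomial.X (2, 0))
      + (MvPolynomial.X (1, 1) * MvPolynomial.X (2, 2)
        - MvPolynomial.X (1, 2) * MvPolynomial.X (2, 1)))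
      - (MvPolynomial.X (0, 0) + MvPolynomial.X (1, 1) + MvPolynomial.X (2, 2)) ^ 2
    have hφ : ∀ B : Matrix (Fin 3) (Fin 3) K,
        MvPolynomial.eval (fun ij : Fin 3 × Fin 3 => B ij.1 ij.2) φ =
          3 * e2 B - B.trace ^ 2 := by
      intro B
      simp [φ, e2, Matrix.trace_fin_three]
    have h1 := hpt φ (by
      rintro _ ⟨B, hB, s, rfl⟩
      obtain ⟨ht, he⟩ := trace_of_mem_V3 B hB
      rw [hφ, e2_add_scalar, Matrix.trace_add, Matrix.trace_smul, Matrix.trace_one, ht, he]
      simp
      ring)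
    rw [hφ, pt_trace, pt_e2] at h1
    apply h3
    linear_combination h1
  · have h1 : (!![0, 1, 0; 1, 0, 0; 0, 0, 0] : Matrix (Fin 3) (Fin 3) K) ∈ quadric c := by
      rw [h]; exact Set.mem_univ _
    rw [mem_quadric] at h1
    simp [e2, Matrix.trace_fin_three] at h1

/-- Over every algebraically closed field `K`, for every `c` with `3 c ≠ 1` the quadric
hypersurface `{A | e₂(A) = c (trace A)²}` is the Zariski closure of the image on `M_3(K)` of a
homogeneous polynomial of positive degree and is none of the six conjectured sets; distinct `c`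
give distinct quadrics, so the conjecture fails over every `K` and infinitely many closures
occur. -/
theorem result (K : Type*) [Field K] [IsAlgClosed K] :
    (∀ c : K, 3 * c ≠ 1 → quadric c ∈ imageClosures K ∧ quadric c ∉ sixSets K) ∧
      Function.Injective (quadric : K → Set (Matrix (Fin 3) (Fin 3) K)) := by
  refine ⟨fun c h3 => ⟨?_, quadric_not_mem_six c h3⟩, quadric_injective⟩
  obtain ⟨k, hc, hk⟩ := exists_parameter c h3
  exact ⟨8, 15, thePoly k, by norm_num, thePoly_homogeneous k, closure_thePoly k c hc hk⟩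

end Pool.Agent.Results.MP_1a49c3_al.QuadricClosures
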